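import Pool.Agent.Lib.MP_1e748d_nt.Main

set_option autoImplicit false

/-- An interval of length `4 + 1 / (2^21 D^2 log D)` contains at most `2^21 D log D` conjugate
sets of degree at most `D`. -/
theorem Pool.Agent.Lib.MP_1e748d_nt.Old.CountBound.result (D : ℕ) (hD : 2 ≤ D) (a : ℝ) :
    Set.encard {p : Polynomial ℤ | p.Monic ∧ Irreducible p ∧
        Multiset.card (p.map (algebraMap ℤ ℝ)).roots = p.natDegree ∧ p.natDegree ≤ D ∧
        ∀ x ∈ (p.map (algebraMap ℤ ℝ)).roots,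
          x ∈ Set.Icc a (a + 4 + 1 / (2 ^ 21 * (D : ℝ) ^ 2 * Real.log D))} ≤
      (⌊2 ^ 21 * (D : ℝ) * Real.log D⌋₊ : ℕ) := by
  by_contra hcon
  push Not at hcon
  obtain ⟨T, hT, hc⟩ := Set.exists_subset_encard_eq (Order.add_one_le_of_lt hcon)
  have hf : T.Finite := Set.finite_of_encard_eq_coe (by exact_mod_cast hc)
  have h := Pool.Agent.Lib.MP_1e748d_nt.card_le D hD a hf.toFinset
    fun p hp => hT (hf.mem_toFinset.mp hp)
  rw [hf.encard_eq_coe_toFinset_card] at hc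
  have hc' : hf.toFinset.card = ⌊2 ^ 21 * (D : ℝ) * Real.log D⌋₊ + 1 := by exact_mod_cast hc
  rw [hc'] at h
  have := Nat.lt_floor_add_one (2 ^ 21 * (D : ℝ) * Real.log D)
  push_cast at h
  linarith
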